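import Mathlib

namespace Pool.Agent.H.MP_d5cca6_al

open Set Filter Real

section Defs
variable {X : Type} [MetricSpace X]

/-- any two points are joined by an isometrically embedded segment -/
def IsGeodesic (X : Type) [MetricSpace X] : Prop :=
  ∀ p q : X, ∃ γ : ℝ → X, γ 0 = p ∧ γ (dist p q) = q ∧
    ∀ u ∈ Icc 0 (dist p q), ∀ v ∈ Icc 0 (dist p q), dist (γ u) (γ v) = |u - v|

/-- Gromov product `(x|y)_w` -/
noncomputable def gp (w x y : X) : ℝ := (dist x w + dist y w - dist x y) / 2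

/-- Gromov hyperbolicity (four point condition) -/
def IsHyp (X : Type) [MetricSpace X] : Prop :=
  ∃ δ : ℝ, ∀ w x y z : X, min (gp w x y) (gp w y z) - δ ≤ gp w x z

/-- Gromov sequence; boundary points are classes of these under `GEq` -/
def GSeq (x : ℕ → X) : Prop :=
  ∀ w, Tendsto (fun p : ℕ × ℕ => gp w (x p.1) (x p.2)) atTop atTop

def GEq (x y : ℕ → X) : Prop := ∀ w, Tendsto (fun n => gp w (x n) (y n)) atTop atTop

variable {G : Type} [Group G] [MulAction G X]

/-- `g` fixes the boundary point represented by `x` -/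
def Fixes (g : G) (x : ℕ → X) : Prop := GSeq x ∧ GEq x fun n => g • x n

/-- loxodromic: an orbit map of `⟨g⟩` is a quasi-isometric embedding -/
def Lox (X : Type) [MetricSpace X] [MulAction G X] (g : G) : Prop :=
  ∃ (x : X) (c C : ℝ), 0 < c ∧ ∀ n : ℕ, c * n - C ≤ dist x (g ^ n • x)

def Lineal (G X : Type) [Group G] [MetricSpace X] [MulAction G X] : Prop :=
  (∃ g : G, Lox X g) ∧ ∀ g h : G, Lox X g → Lox X h → ∀ x : ℕ → X, Fixes g x ↔ Fixes h x

def Focal (G X : Type) [Group G] [MetricSpace X] [MulAction G X] : Prop :=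
  ¬ Lineal G X ∧ (∃ g : G, Lox X g) ∧
    ∀ g h : G, Lox X g → Lox X h → ∃ x : ℕ → X, Fixes g x ∧ Fixes h x

def Cobounded (G X : Type) [Group G] [MetricSpace X] [MulAction G X] : Prop :=
  ∃ (x : X) (R : ℝ), ∀ y : X, ∃ g : G, dist y (g • x) ≤ R

/-- a cobounded isometric action on a geodesic hyperbolic space which is focal or lineal -/
def Good (G X : Type) [Group G] [MetricSpace X] [MulAction G X] : Prop :=
  (∀ (g : G) (x y : X), dist (g • x) (g • y) = dist x y) ∧ IsGeodesic X ∧ IsHyp X ∧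
    Cobounded G X ∧ (Focal G X ∨ Lineal G X)

/-- existence of a left invariant finitely additive probability measure on all subsets -/
def Amenable (G : Type) [Group G] : Prop :=
  ∃ μ : Set G → ℝ, (∀ A, 0 ≤ μ A) ∧ μ univ = 1 ∧
    (∀ A B, Disjoint A B → μ (A ∪ B) = μ A + μ B) ∧ ∀ (g : G) A, μ ((g * ·) '' A) = μ A

end Defs

def LP {X : Type} (d : X → X → ℝ) (x y : X) (L : ℝ) : Prop :=
  0 ≤ L ∧ ∃ γ : ℝ → X, γ 0 = x ∧ γ L = y ∧ ∀ u ∈ Icc 0 L, ∀ v ∈ Icc 0 L, d (γ u) (γ v) ≤ |u - v|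

lemma LP.trans {X : Type} {d : X → X → ℝ} (ht : ∀ x y z, d x z ≤ d x y + d y z)
    (hc : ∀ x y, d x y = d y x) {x y z : X} {L L' : ℝ} (h : LP d x y L) (h' : LP d y z L') :
    LP d x z (L + L') := by
  obtain ⟨l0, γ, a1, a2, a3⟩ := h
  obtain ⟨l1, γ', b1, b2, b3⟩ := h'
  have key : ∀ u ∈ Icc 0 L, ∀ v, L < v → v ≤ L + L' → d (γ u) (γ' (v - L)) ≤ v - u := by
    intro u hu v h1 h2
    have e1 := a3 u hu L ⟨l0, le_rfl⟩
    have e2 := b3 0 ⟨le_rfl, l1⟩ (v - L) ⟨by linarith, by linarith⟩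
    rw [a2, abs_of_nonpos (by linarith [hu.2])] at e1
    rw [b1, abs_of_nonpos (by linarith)] at e2
    linarith [ht (γ u) y (γ' (v - L))]
  refine ⟨by linarith, fun u => if u ≤ L then γ u else γ' (u - L), by simp [l0, a1], ?_, ?_⟩
  · by_cases h : L + L' ≤ L
    · have : L' = 0 := by linarith
      subst this
      simp only [add_zero, le_refl, if_true, a2, ← b1, b2]
    · simp [h, b2]
  · intro u hu v hv
    by_cases h1 : u ≤ L <;> by_cases h2 : v ≤ L <;> simp only [h1, h2, if_true, if_false]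
    · exact a3 u ⟨hu.1, h1⟩ v ⟨hv.1, h2⟩
    · exact (key u ⟨hu.1, h1⟩ v (not_le.1 h2) hv.2).trans (by rw [abs_sub_comm]; exact le_abs_self _)
    · rw [hc]; exact (key v ⟨hv.1, h2⟩ u (not_le.1 h1) hu.2).trans (le_abs_self _)
    · have := b3 (u - L) ⟨by linarith, by linarith [hu.2]⟩ (v - L) ⟨by linarith, by linarith [hv.2]⟩
      rwa [sub_sub_sub_cancel_right] at this

lemma geo_of_LP {X : Type} [MetricSpace X] (h : ∀ p q : X, LP dist p q (dist p q)) :
    IsGeodesic X := by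
  intro p q
  obtain ⟨l0, γ, a1, a2, a3⟩ := h p q
  have key : ∀ u ∈ Icc 0 (dist p q), ∀ v ∈ Icc 0 (dist p q), u ≤ v → dist (γ u) (γ v) = |u - v| := by
    intro u hu v hv huv
    refine le_antisymm (a3 u hu v hv) ?_
    have e1 := a3 0 ⟨le_rfl, l0⟩ u hu
    have e2 := a3 v hv _ ⟨l0, le_rfl⟩
    rw [a1, abs_of_nonpos (by linarith [hu.1])] at e1
    rw [a2, abs_of_nonpos (by linarith [hv.2])] at e2
    rw [abs_of_nonpos (by linarith)]
    linarith [dist_triangle4 p (γ u) (γ v) q]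
  refine ⟨γ, a1, a2, fun u hu v hv => ?_⟩
  rcases le_total u v with h | h
  · exact key u hu v hv h
  · rw [dist_comm, abs_sub_comm]; exact key v hv u hu h

structure CD (G : Type) [Group G] where
  Y : Type
  act : MulAction G Y
  ρ : Y → Y → ℝ
  θ : ℝ
  lam : G → ℝ
  o : Y
  lam_mul : ∀ g h, lam (g * h) = lam g + lam h
  lam_ne : ∃ g, lam g ≠ 0
  ρ_nonneg : ∀ x y, 0 ≤ ρ x y
  ρ_self : ∀ x, ρ x x = 0
  ρ_comm : ∀ x y, ρ x y = ρ y x
  ρ_tri : ∀ x y z, ρ x z ≤ ρ x y + ρ y z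
  ρ_smul : ∀ (g : G) x y, ρ (g • x) (g • y) = exp (lam g) * ρ x y
  kind : (θ = 0 ∧ ∀ x y z, ρ x z ≤ max (ρ x y) (ρ y z)) ∨ (θ = 1 ∧ ∀ x y, LP ρ x y (ρ x y))
  cob : ∀ y s, ∃ g : G, |lam g - s| ≤ 1 ∧ ρ y (g • o) ≤ exp s

variable {G : Type} [Group G] (c : CD G)

namespace CD

instance : MulAction G c.Y := c.act

@[ext] structure Pre where
  y : c.Y
  s : ℝ

variable {c}

abbrev pt (y : c.Y) (s : ℝ) : c.Pre := ⟨y, s⟩

noncomputable def M (p q : c.Pre) : ℝ := max (max (exp p.2) (exp q.2)) (c.ρ p.1 q.1)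
noncomputable def Hh (p q : c.Pre) : ℝ := log (M p q)
noncomputable def d (p q : c.Pre) : ℝ := 2 * Hh p q - p.2 - q.2 + 2 * c.θ * (c.ρ p.1 q.1 / M p q)

lemma M1 (p q : c.Pre) : exp p.2 ≤ M p q := le_max_of_le_left (le_max_left _ _)
lemma M2 (p q : c.Pre) : exp q.2 ≤ M p q := le_max_of_le_left (le_max_right _ _)
lemma M3 (p q : c.Pre) : c.ρ p.1 q.1 ≤ M p q := le_max_right _ _
lemma Mpos (p q : c.Pre) : 0 < M p q := (exp_pos _).trans_le (M1 p q)
lemma expH (p q : c.Pre) : exp (Hh p q) = M p q := exp_log (Mpos p q)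
lemma H1 (p q : c.Pre) : p.2 ≤ Hh p q := exp_le_exp.1 (by rw [expH]; exact M1 p q)
lemma H2 (p q : c.Pre) : q.2 ≤ Hh p q := exp_le_exp.1 (by rw [expH]; exact M2 p q)
lemma H_le {p q : c.Pre} {h : ℝ} (h1 : p.2 ≤ h) (h2 : q.2 ≤ h) (h3 : c.ρ p.1 q.1 ≤ exp h) :
    Hh p q ≤ h := exp_le_exp.1 (by
  rw [expH]; exact max_le (max_le (exp_le_exp.2 h1) (exp_le_exp.2 h2)) h3)
lemma M_comm (p q : c.Pre) : M p q = M q p := by rw [M, M, max_comm (exp _), c.ρ_comm]
lemma θ01 : 0 ≤ c.θ ∧ c.θ ≤ 1 := by rcases c.kind with h | h <;> simp [h.1]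
lemma d_lo (p q : c.Pre) : 2 * Hh p q - p.2 - q.2 ≤ d p q := by
  have := mul_nonneg (θ01 (c := c)).1 (div_nonneg (c.ρ_nonneg p.1 q.1) (Mpos p q).le)
  unfold d; linarith
lemma d_hi (p q : c.Pre) : d p q ≤ 2 * Hh p q - p.2 - q.2 + 2 := by
  have := mul_le_one₀ (θ01 (c := c)).2 (div_nonneg (c.ρ_nonneg p.1 q.1) (Mpos p q).le)
    ((div_le_one (Mpos p q)).2 (M3 p q))
  unfold d; linarith

lemma opt (p q : c.Pre) {h : ℝ} (h1 : p.2 ≤ h) (h2 : q.2 ≤ h) :
    Hh p q + c.ρ p.1 q.1 / M p q ≤ h + c.ρ p.1 q.1 / exp h := by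
  have hM := Mpos p q
  have e : c.ρ p.1 q.1 / exp h = c.ρ p.1 q.1 / M p q * exp (Hh p q - h) := by
    rw [exp_sub, expH]; field_simp
  have a := add_one_le_exp (Hh p q - h)
  have t0 := div_nonneg (c.ρ_nonneg p.1 q.1) hM.le
  have t1 := (div_le_one hM).2 (M3 p q)
  rw [e]
  rcases le_total (c.ρ p.1 q.1) (exp h) with h3 | h3
  · have := H_le h1 h2 h3
    nlinarith
  · have : M p q = c.ρ p.1 q.1 :=
      max_eq_right (max_le ((exp_le_exp.2 h1).trans h3) ((exp_le_exp.2 h2).trans h3))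
    rw [← this, div_self hM.ne']; linarith

lemma H_ultra (p q r : c.Pre) : Hh p r ≤ max (Hh p q) (Hh q r) + 1 := by
  refine H_le (by linarith [H1 p q, le_max_left (Hh p q) (Hh q r)])
    (by linarith [H2 q r, le_max_right (Hh p q) (Hh q r)]) ?_
  have a := exp_le_exp.2 (le_max_left (Hh p q) (Hh q r))
  have b := exp_le_exp.2 (le_max_right (Hh p q) (Hh q r))
  rw [expH] at a b
  have := add_one_le_exp (1 : ℝ)
  rw [exp_add]
  nlinarith [c.ρ_tri p.1 q.1 r.1, M3 p q, M3 q r, exp_pos (max (Hh p q) (Hh q r))]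

lemma d_tri (p q r : c.Pre) : d p r ≤ d p q + d q r := by
  have a := exp_le_exp.2 (le_max_left (Hh p q) (Hh q r))
  have b := exp_le_exp.2 (le_max_right (Hh p q) (Hh q r))
  rw [expH] at a b
  have h1 : p.2 ≤ max (Hh p q) (Hh q r) := le_max_of_le_left (H1 p q)
  have h2 : r.2 ≤ max (Hh p q) (Hh q r) := le_max_of_le_right (H2 q r)
  have h3 : max (Hh p q) (Hh q r) ≤ Hh p q + Hh q r - q.2 :=
    max_le (by linarith [H1 q r]) (by linarith [H2 p q])
  rcases c.kind with ⟨h0, hu⟩ | ⟨h0, -⟩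
  · have := H_le h1 h2 ((hu p.1 q.1 r.1).trans (max_le ((M3 p q).trans a) ((M3 q r).trans b)))
    simp only [d, h0]; linarith
  · have := opt p r h1 h2
    have e1 := div_le_div_of_nonneg_left (c.ρ_nonneg p.1 q.1) (Mpos p q) a
    have e2 := div_le_div_of_nonneg_left (c.ρ_nonneg q.1 r.1) (Mpos q r) b
    have e3 := div_le_div_of_nonneg_right (c.ρ_tri p.1 q.1 r.1) (exp_pos (max (Hh p q) (Hh q r))).le
    rw [add_div] at e3
    simp only [d, h0]; linarith

lemma d_vert (y : c.Y) (u v : ℝ) : d (pt y u) (pt y v) = |u - v| := by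
  have : Hh (pt y u) (pt y v) = max u v :=
    le_antisymm (H_le (le_max_left _ _) (le_max_right _ _) (by
      simp only [c.ρ_self]; exact (exp_pos _).le)) (max_le (H1 (pt y u) _) (H2 _ (pt y v)))
  simp only [d, this, c.ρ_self]
  rcases le_total u v with h | h
  · rw [max_eq_right h, abs_of_nonpos (by linarith)]; simp; ring
  · rw [max_eq_left h, abs_of_nonneg (by linarith)]; simp; ring

noncomputable instance : PseudoMetricSpace c.Pre where
  dist := d
  dist_self p := by have := d_vert p.1 p.2 p.2; simpa using this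
  dist_comm p q := by simp only [d, Hh, M_comm p q, c.ρ_comm p.1]; ring
  dist_triangle := d_tri

lemma lam_one : c.lam 1 = 0 := by have := c.lam_mul 1 1; simp at this; exact this

instance : MulAction G c.Pre where
  smul g p := ⟨g • p.1, p.2 + c.lam g⟩
  one_smul p := Pre.ext (one_smul _ _) (by change p.2 + c.lam 1 = _; simp [lam_one])
  mul_smul g h p := Pre.ext (mul_smul _ _ _) (by
    change p.2 + c.lam _ = p.2 + c.lam h + c.lam g; rw [c.lam_mul]; ring)

lemma smul1 (g : G) (p : c.Pre) : (g • p).1 = g • p.1 := rfl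
lemma smul2 (g : G) (p : c.Pre) : (g • p).2 = p.2 + c.lam g := rfl

lemma d_smul (g : G) (p q : c.Pre) : d (g • p) (g • q) = d p q := by
  have hM : M (g • p) (g • q) = exp (c.lam g) * M p q := by
    simp only [M, smul1, smul2, c.ρ_smul, exp_add, mul_max_of_nonneg _ _ (exp_pos (c.lam g)).le,
      mul_comm]
  simp only [d, Hh, hM, smul1, smul2, c.ρ_smul, log_mul (exp_pos _).ne' (Mpos p q).ne', log_exp,
    mul_div_mul_left _ _ (exp_pos _).ne']
  ring

instance : IsIsometricSMul G c.Pre := ⟨fun g => Isometry.of_dist_eq (d_smul g)⟩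

variable (c) in
abbrev X : Type := SeparationQuotient c.Pre

noncomputable abbrev mq (y : c.Y) (s : ℝ) : c.X := SeparationQuotient.mk (pt y s)

lemma dist_mk (p q : c.Pre) :
    dist (SeparationQuotient.mk p) (SeparationQuotient.mk q) = d p q := rfl

lemma geo : IsGeodesic c.X := by
  refine geo_of_LP fun x y => ?_
  obtain ⟨p, rfl⟩ := SeparationQuotient.surjective_mk x
  obtain ⟨q, rfl⟩ := SeparationQuotient.surjective_mk y
  have l1 : LP dist (SeparationQuotient.mk p) (mq p.1 (Hh p q)) (Hh p q - p.2) :=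
    ⟨by linarith [H1 p q], fun u => mq p.1 (p.2 + u), by simp, by simp, fun u _ v _ => by
      rw [dist_mk, d_vert]; simp⟩
  have l3 : LP dist (mq q.1 (Hh p q)) (SeparationQuotient.mk q) (Hh p q - q.2) :=
    ⟨by linarith [H2 p q], fun u => mq q.1 (Hh p q - u), by simp, by simp, fun u _ v _ => by
      rw [dist_mk, d_vert, abs_sub_comm]; simp⟩
  have hM := Mpos p q
  have l2 : LP dist (mq p.1 (Hh p q)) (mq q.1 (Hh p q)) (2 * c.θ * (c.ρ p.1 q.1 / M p q)) := by
    rcases c.kind with ⟨h0, -⟩ | ⟨h0, hg⟩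
    · have : mq p.1 (Hh p q) = mq q.1 (Hh p q) := by
        apply eq_of_dist_eq_zero
        refine le_antisymm ?_ dist_nonneg
        have := H_le (c := c) (p := pt p.1 (Hh p q)) (q := pt q.1 (Hh p q)) le_rfl le_rfl
          (by rw [expH]; exact M3 p q)
        rw [dist_mk]; simp only [d, h0]; linarith
      rw [this]
      exact ⟨by simp [h0], fun _ => mq q.1 (Hh p q), rfl, rfl, fun _ _ _ _ => by simp⟩
    · obtain ⟨l0, γ, a1, a2, a3⟩ := hg p.1 q.1
      have e : ∀ u ∈ Icc 0 (2 * c.θ * (c.ρ p.1 q.1 / M p q)), u * M p q / 2 ∈ Icc 0 (c.ρ p.1 q.1) := by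
        intro u hu
        rw [h0, mul_one, ← mul_div_assoc, mem_Icc, le_div_iff₀ hM] at hu
        exact ⟨by have := hu.1; positivity, by linarith [hu.2]⟩
      refine ⟨by rw [h0]; positivity, fun u => mq (γ (u * M p q / 2)) (Hh p q), by simp [a1], ?_,
        fun u hu v hv => ?_⟩
      · have : 2 * c.θ * (c.ρ p.1 q.1 / M p q) * M p q / 2 = c.ρ p.1 q.1 := by
          rw [h0]; field_simp
        simp only [this, a2]
      · have h1 := a3 _ (e u hu) _ (e v hv)
        have h2 := opt (c := c) (pt (γ (u * M p q / 2)) (Hh p q)) (pt (γ (v * M p q / 2)) (Hh p q)) le_rfl le_rfl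
        have h3 : |u * M p q / 2 - v * M p q / 2| = |u - v| * M p q / 2 := by
          rw [← sub_div, ← sub_mul, abs_div, abs_mul, abs_of_pos hM, abs_two]
        have h4 : c.ρ (γ (u * M p q / 2)) (γ (v * M p q / 2)) / M p q ≤ |u - v| / 2 := by
          rw [div_le_iff₀ hM]; linarith
        rw [expH] at h2
        rw [dist_mk]; simp only [d, h0] at h2 ⊢; linarith
  have := (l1.trans dist_triangle dist_comm l2).trans dist_triangle dist_comm l3
  convert this using 1
  rw [dist_mk, d]; ring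

lemma hyp : IsHyp c.X := by
  refine ⟨4, fun w x y z => ?_⟩
  obtain ⟨w, rfl⟩ := SeparationQuotient.surjective_mk w
  obtain ⟨x, rfl⟩ := SeparationQuotient.surjective_mk x
  obtain ⟨y, rfl⟩ := SeparationQuotient.surjective_mk y
  obtain ⟨z, rfl⟩ := SeparationQuotient.surjective_mk z
  simp only [gp, dist_mk]
  have Hc : ∀ p q : c.Pre, Hh p q = Hh q p := fun p q => by rw [Hh, Hh, M_comm]
  have a1 := H_ultra x y z
  have a2 := H_ultra x w z
  have a3 := H_ultra y x w
  have a4 := H_ultra y z w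
  rw [Hc w z] at a2
  rw [Hc y x] at a3
  have := d_lo x w; have := d_lo z w; have := d_lo x y; have := d_lo y z
  have := d_hi x z; have := d_hi y w; have := d_hi x w; have := d_hi z w
  by_contra hc
  rw [not_le, lt_sub_iff_add_lt, lt_min_iff] at hc
  obtain ⟨c1, c2⟩ := hc
  rw [← sub_le_iff_le_add, le_max_iff] at a1 a2 a3 a4
  rcases a1 with a1 | a1 <;> rcases a2 with a2 | a2 <;> rcases a3 with a3 | a3 <;>
    rcases a4 with a4 | a4 <;> linarith

lemma fixes (g : G) : Fixes g fun n : ℕ => mq c.o n := by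
  constructor
  · intro w
    obtain ⟨w, rfl⟩ := SeparationQuotient.surjective_mk w
    refine tendsto_atTop.2 fun b => ?_
    filter_upwards [eventually_ge_atTop (⌈b + w.2⌉₊, ⌈b + w.2⌉₊)] with p hp
    have h1 : b + w.2 ≤ p.1 := Nat.ceil_le.1 hp.1
    have h2 : b + w.2 ≤ p.2 := Nat.ceil_le.1 hp.2
    have a1 := d_lo (c := c) (pt c.o (p.1 : ℝ)) w
    have a2 := d_lo (c := c) (pt c.o (p.2 : ℝ)) w
    have b1 := H1 (c := c) (pt c.o (p.1 : ℝ)) w
    have b2 := H1 (c := c) (pt c.o (p.2 : ℝ)) w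
    simp only [gp, dist_mk, d_vert] at *
    cases abs_cases ((p.1 : ℝ) - p.2) <;> linarith
  · intro w
    obtain ⟨w, rfl⟩ := SeparationQuotient.surjective_mk w
    refine tendsto_atTop.2 fun b => ?_
    filter_upwards [eventually_ge_atTop ⌈b + w.2 + 2 * |c.lam g| + 1⌉₊,
      eventually_ge_atTop ⌈c.ρ c.o (g • c.o)⌉₊] with n hn hn'
    have h1 := Nat.ceil_le.1 hn
    have h2 := Nat.ceil_le.1 hn'
    have a1 := d_lo (c := c) (pt c.o (n : ℝ)) w
    have a2 := d_lo (c := c) (g • (pt c.o (n : ℝ))) w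
    have b1 := H1 (c := c) (pt c.o (n : ℝ)) w
    have b2 := H1 (c := c) (g • (pt c.o (n : ℝ))) w
    have a3 := d_hi (c := c) (pt c.o (n : ℝ)) (g • (pt c.o (n : ℝ)))
    have b3 := H_le (c := c) (p := (pt c.o (n : ℝ))) (q := g • (pt c.o (n : ℝ))) (h := n + |c.lam g|)
      (by simp) (by simp [smul2, le_abs_self]) (by
        have := add_one_le_exp (n + |c.lam g|)
        have := abs_nonneg (c.lam g)
        simp only [smul1]; linarith)
    simp only [gp, ← SeparationQuotient.mk_smul, dist_mk, smul2] at *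
    linarith [le_abs_self (c.lam g), neg_abs_le (c.lam g)]

lemma d_abs (p q : c.Pre) : |p.2 - q.2| ≤ d p q := by
  have := d_lo p q; have := H1 p q; have := H2 p q
  rw [abs_le]; constructor <;> linarith

lemma good : Good G c.X := by
  have hl : ∃ g : G, Lox c.X g := by
    obtain ⟨g, hg⟩ := c.lam_ne
    refine ⟨g, mq c.o 0, |c.lam g|, 0, abs_pos.2 hg, fun n => ?_⟩
    have e : c.lam (g ^ n) = n * c.lam g := by
      induction n with
      | zero => simp [lam_one]
      | succ n ih => rw [pow_succ, c.lam_mul, ih]; push_cast; ring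
    have := d_abs (c := c) (pt c.o 0) (g ^ n • (pt c.o 0))
    rw [← SeparationQuotient.mk_smul, dist_mk]
    simpa [smul2, e, abs_mul, mul_comm] using this
  refine ⟨fun g x y => ?_, geo, hyp, ⟨mq c.o 0, 5, fun y => ?_⟩, ?_⟩
  · obtain ⟨x, rfl⟩ := SeparationQuotient.surjective_mk x
    obtain ⟨y, rfl⟩ := SeparationQuotient.surjective_mk y
    simp only [← SeparationQuotient.mk_smul, dist_mk, d_smul]
  · obtain ⟨y, rfl⟩ := SeparationQuotient.surjective_mk y
    obtain ⟨g, h1, h2⟩ := c.cob y.1 y.2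
    refine ⟨g, ?_⟩
    rw [abs_le] at h1
    have a := d_hi y (g • (pt c.o 0))
    have b := H_le (p := y) (q := g • (pt c.o 0)) (h := y.2 + 1) (by simp)
      (by simp only [smul2]; linarith) (h2.trans (exp_le_exp.2 (by simp)))
    simp only [← SeparationQuotient.mk_smul, dist_mk, smul2] at *
    linarith
  · by_cases h : Lineal G c.X
    · exact Or.inr h
    · exact Or.inl ⟨h, hl, fun g h _ _ => ⟨_, fixes g, fixes h⟩⟩

lemma bound {g : G} {R : ℝ} (h : dist (mq c.o 0) (g • mq c.o 0) ≤ R) :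
    |c.lam g| ≤ R ∧ c.ρ c.o (g • c.o) ≤ exp R := by
  rw [← SeparationQuotient.mk_smul, dist_mk] at h
  have a := d_abs (c := c) (pt c.o 0) (g • (pt c.o 0))
  have b := d_lo (c := c) (pt c.o 0) (g • (pt c.o 0))
  have e := H2 (c := c) (pt c.o 0) (g • (pt c.o 0))
  have f := M3 (c := c) (pt c.o 0) (g • (pt c.o 0))
  rw [← expH] at f
  refine ⟨by simpa [smul2] using a.trans h, f.trans (exp_le_exp.2 ?_)⟩
  simp only at b; linarith

end CD

end Pool.Agent.H.MP_d5cca6_al
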