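import Pool.Agent.H.MP_d5cca6_al.A

namespace Pool.Agent.H.MP_d5cca6_al

open Monoid Monoid.CoprodI Set

abbrev MM : Bool → Type := fun _ => Multiplicative ℝ
abbrev Y0 := CoprodI MM
abbrev L := List (Σ i, MM i)

noncomputable instance : ∀ i, DecidableEq (MM i) := fun _ => Classical.decEq _

def F (l : L) : ℝ := (l.map fun x => |x.2.toAdd|).sum
def P (l : L) : Y0 := (l.map fun x => of x.2).prod
def Red (l : L) : Prop := (∀ x ∈ l, x.2 ≠ 1) ∧ (l.map Sigma.fst).IsChain (· ≠ ·)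
noncomputable def wd (g : Y0) : L := (Word.equiv g).toList
noncomputable def len (g : Y0) : ℝ := F (wd g)
def Al (S : AddSubgroup ℝ) (l : L) : Prop := ∀ x ∈ l, x.2.toAdd ∈ S
def In (S : AddSubgroup ℝ) (g : Y0) : Prop := Al S (wd g)

lemma wd_P {l : L} (h : Red l) : wd (P l) = l := by
  let w : Word MM := ⟨l, h.1, (List.isChain_map _).1 h.2⟩
  have : Word.equiv (P l) = w := Word.equiv.apply_symm_apply w
  unfold wd; rw [this]

lemma red_w (g : Y0) : Red (wd g) :=
  ⟨(Word.equiv g).ne_one, (List.isChain_map _).2 (Word.equiv g).chain_ne⟩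

lemma P_w (g : Y0) : P (wd g) = g := Word.equiv.symm_apply_apply g

lemma F_app (a b : L) : F (a ++ b) = F a + F b := by simp [F]
lemma P_app (a b : L) : P (a ++ b) = P a * P b := by simp [P]
lemma F_cons (x) (b : L) : F (x :: b) = |x.2.toAdd| + F b := by simp [F]
lemma P_cons (x) (b : L) : P (x :: b) = of x.2 * P b := by simp [P]
lemma F_nil : F [] = 0 := rfl
lemma P_nil : P [] = 1 := rfl
lemma map_nonneg (l : L) : ∀ y ∈ l.map fun x => |x.2.toAdd|, 0 ≤ y := by
  intro y hy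
  obtain ⟨x, -, rfl⟩ := List.mem_map.1 hy
  exact abs_nonneg _
lemma F_nonneg (l : L) : 0 ≤ F l := List.sum_nonneg (map_nonneg l)
lemma Red.left {a b : L} (h : Red (a ++ b)) : Red a := ⟨fun x hx => h.1 x (by simp [hx]), by
  have := h.2; rw [List.map_append] at this; exact this.left_of_append⟩
lemma Red.tail {x} {b : L} (h : Red (x :: b)) : Red b := ⟨fun x hx => h.1 x (by simp [hx]), by
  have := h.2; rw [List.map_cons] at this; exact this.tail⟩

lemma key (l₁ : L) : ∀ l₂ : L, Red l₁ → Red l₂ → ∃ l, Red l ∧ P l₁ * P l₂ = P l ∧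
    F l ≤ F l₁ + F l₂ ∧ ∀ S, Al S l₁ → Al S l₂ → Al S l := by
  induction l₁ using List.reverseRecOn with
  | nil => exact fun l₂ _ h => ⟨l₂, h, by simp [P_nil], by simp [F_nil], fun _ _ h => h⟩
  | append_singleton r x ih =>
    intro l₂ h₁ h₂
    cases l₂ with
    | nil => exact ⟨_, h₁, by simp [P_nil], by simp [F_nil], fun _ h _ => h⟩
    | cons y t =>
      obtain ⟨i, a⟩ := x
      obtain ⟨j, b⟩ := y
      have hr := h₁.left
      have ht := h₂.tail
      by_cases hij : i = j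
      · subst hij
        by_cases hab : a * b = 1
        · obtain ⟨l, a1, a2, a3, a4⟩ := ih t hr ht
          refine ⟨l, a1, ?_, ?_, fun S b1 b2 => a4 S (fun x hx => b1 x (by simp [hx]))
            (fun x hx => b2 x (by simp [hx]))⟩
          · have : (of a : Y0) * of b = 1 := by rw [← map_mul, hab, map_one]
            rw [← a2, P_app, P_cons, P_cons, P_nil, mul_one, mul_assoc, ← mul_assoc (of a), this,
              one_mul]
          · rw [F_app, F_cons, F_cons, F_nil]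
            linarith [abs_nonneg a.toAdd, abs_nonneg b.toAdd]
        · refine ⟨r ++ ⟨i, a * b⟩ :: t, ⟨fun x hx => ?_, ?_⟩, ?_, ?_, fun S b1 b2 x hx => ?_⟩
          · simp only [List.mem_append, List.mem_cons] at hx
            rcases hx with hx | rfl | hx
            exacts [hr.1 x hx, hab, ht.1 x hx]
          · have h1 := h₁.2; have h2 := h₂.2
            simp only [List.map_append, List.map_cons, List.map_nil] at h1 h2 ⊢
            exact List.isChain_split.2 ⟨h1, h2⟩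
          · simp only [P_app, P_cons, P_nil, mul_one, map_mul, mul_assoc]
          · simp only [F_app, F_cons, F_nil, toAdd_mul]
            linarith [abs_add_le a.toAdd b.toAdd]
          · simp only [List.mem_append, List.mem_cons] at hx
            rcases hx with hx | rfl | hx
            exacts [b1 x (by simp [hx]), S.add_mem (b1 ⟨i, a⟩ (by simp)) (b2 ⟨i, b⟩ (by simp)),
              b2 x (by simp [hx])]
      · refine ⟨(r ++ [⟨i, a⟩]) ++ ⟨j, b⟩ :: t, ⟨fun x hx => ?_, ?_⟩, (P_app _ _).symm,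
          (F_app _ _).le, fun S b1 b2 x hx => ?_⟩
        · rcases List.mem_append.1 hx with hx | hx
          exacts [h₁.1 x hx, h₂.1 x hx]
        · have h1 := h₁.2; have h2 := h₂.2
          simp only [List.map_append, List.map_cons, List.map_nil, List.append_assoc,
            List.cons_append, List.nil_append] at h1 h2 ⊢
          exact List.isChain_append_cons_cons.2 ⟨h1, hij, h2⟩
        · rcases List.mem_append.1 hx with hx | hx
          exacts [b1 x hx, b2 x hx]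

lemma len_P {l : L} (h : Red l) : len (P l) = F l := by rw [len, wd_P h]
lemma len_nonneg (g) : 0 ≤ len g := F_nonneg _
lemma wd_one : wd 1 = [] := wd_P (l := []) ⟨by simp, by simp⟩
lemma len_one : len 1 = 0 := by rw [len, wd_one, F_nil]
lemma In.one (S) : In S 1 := by rw [In, wd_one]; intro x hx; simp at hx

lemma len_mul (g h : Y0) : len (g * h) ≤ len g + len h := by
  obtain ⟨l, a1, a2, a3, -⟩ := key _ _ (red_w g) (red_w h)
  rw [P_w, P_w] at a2
  rw [a2, len_P a1]; exact a3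

lemma In.mul {S g h} (hg : In S g) (hh : In S h) : In S (g * h) := by
  obtain ⟨l, a1, a2, -, a4⟩ := key _ _ (red_w g) (red_w h)
  rw [P_w, P_w] at a2
  rw [a2, In, wd_P a1]; exact a4 S hg hh

lemma In.mono {S T g} (h : S ≤ T) (hg : In S g) : In T g := fun x hx => h (hg x hx)

def o (i : Bool) (r : ℝ) : Y0 := of (M := MM) (i := i) (Multiplicative.ofAdd r)
lemma o_add (i r s) : o i (r + s) = o i r * o i s := by simp [o, ofAdd_add]
lemma o_zero (i) : o i 0 = 1 := by simp [o]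
lemma o_neg (i r) : o i (-r) = (o i r)⁻¹ := by simp [o, ofAdd_neg]

lemma wd_o (i) {r : ℝ} (h : r ≠ 0) : wd (o i r) = [⟨i, Multiplicative.ofAdd r⟩] := by
  have := wd_P (l := [⟨i, Multiplicative.ofAdd r⟩]) ⟨by simpa using h, by simp⟩
  simpa [P, o] using this

lemma len_o (i r) : len (o i r) = |r| := by
  by_cases h : r = 0
  · simp [h, o_zero, len_one]
  · simp [len, wd_o i h, F]

lemma In.o {S : AddSubgroup ℝ} (i) {r} (h : r ∈ S) : In S (o i r) := by
  by_cases h0 : r = 0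
  · rw [h0, o_zero]; exact In.one S
  · rw [In, wd_o i h0]; intro x hx; simp at hx; subst hx; exact h

lemma P_inv (l : L) : len (P l)⁻¹ ≤ F l ∧ ∀ S, Al S l → In S (P l)⁻¹ := by
  induction l with
  | nil => exact ⟨by simp [P_nil, F_nil, len_one], fun S _ => by simpa [P_nil] using In.one S⟩
  | cons x t ih =>
    have e : (P (x :: t))⁻¹ = (P t)⁻¹ * o x.1 (-x.2.toAdd) := by rw [P_cons, mul_inv_rev, o_neg]; rfl
    rw [e, F_cons]
    refine ⟨(len_mul _ _).trans ?_, fun S h => (ih.2 S fun y hy => h y (by simp [hy])).mul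
      (In.o _ (S.neg_mem (h x (by simp))))⟩
    rw [len_o, abs_neg]; linarith [ih.1]

lemma In.inv {S g} (h : In S g) : In S g⁻¹ := by
  have := (P_inv (wd g)).2 S h; rwa [P_w] at this

lemma len_inv (g) : len g⁻¹ = len g := by
  have h : ∀ g, len g⁻¹ ≤ len g := fun g => by have := (P_inv (wd g)).1; rwa [P_w] at this
  exact le_antisymm (h g) (by simpa using h g⁻¹)

def sc (c : ℝ) : Y0 →* Y0 := lift fun i =>
  (of (M := MM) (i := i)).comp (AddMonoidHom.toMultiplicative (AddMonoidHom.mulLeft c))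

lemma sc_o (c i r) : sc c (o i r) = o i (c * r) := by simp [sc, o]
lemma sc_sc (c d g) : sc c (sc d g) = sc (c * d) g := by
  have : (sc c).comp (sc d) = sc (c * d) := by
    ext i x; simp [sc, mul_assoc]
  exact DFunLike.congr_fun this g
lemma sc_one (g) : sc 1 g = g := by
  have : sc 1 = MonoidHom.id _ := by ext i x; simp [sc]
  rw [this]; rfl

lemma wd_sc {c : ℝ} (hc : c ≠ 0) (g) :
    wd (sc c g) = (wd g).map fun x => ⟨x.1, Multiplicative.ofAdd (c * x.2.toAdd)⟩ := by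
  have h : ∀ l : L, sc c (P l) = P (l.map fun x => ⟨x.1, Multiplicative.ofAdd (c * x.2.toAdd)⟩) := by
    intro l
    induction l with
    | nil => simp [P_nil]
    | cons x t ih => rw [List.map_cons, P_cons, P_cons, map_mul, ih]; congr 1
  conv_lhs => rw [← P_w g, h]
  refine wd_P ⟨fun x hx => ?_, ?_⟩
  · obtain ⟨y, hy, rfl⟩ := List.mem_map.1 hx
    simpa [hc] using (red_w g).1 y hy
  · rw [List.map_map]; exact (red_w g).2

lemma len_sc {c : ℝ} (hc : 0 < c) (g) : len (sc c g) = c * len g := by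
  rw [len, wd_sc hc.ne', len]
  simp [F, Function.comp_def, abs_mul, abs_of_pos hc, List.sum_map_mul_left]

lemma In.sc {S T : AddSubgroup ℝ} {c : ℝ} (hc : c ≠ 0) (h : ∀ x ∈ S, c * x ∈ T) {g}
    (hg : In S g) : In T (sc c g) := by
  rw [In, wd_sc hc]
  intro x hx
  obtain ⟨y, hy, rfl⟩ := List.mem_map.1 hx
  exact h _ (hg y hy)

noncomputable def Z (k : ℤ) : AddSubgroup ℝ := AddSubgroup.zmultiples ((2 : ℝ) ^ (-k))

lemma Z_sc (j k : ℤ) : ∀ x ∈ Z k, (2 : ℝ) ^ j * x ∈ Z (k - j) := by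
  rintro _ ⟨m, rfl⟩
  refine ⟨m, ?_⟩
  simp only [zsmul_eq_mul, sub_eq_add_neg, neg_add, neg_neg, zpow_add₀ (two_ne_zero' ℝ)]
  ring

lemma Z_mono {k l : ℤ} (h : k ≤ l) : Z k ≤ Z l := by
  rintro _ ⟨m, rfl⟩
  obtain ⟨n, rfl⟩ := Int.le.dest h
  refine ⟨m * 2 ^ n, ?_⟩
  simp only [zsmul_eq_mul, neg_add, zpow_add₀ (two_ne_zero' ℝ), zpow_neg, zpow_natCast]
  push_cast; field_simp

def N : Subgroup Y0 where
  carrier := {g | ∃ k, In (Z k) g}
  mul_mem' := by
    rintro a b ⟨k, h⟩ ⟨l, h'⟩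
    exact ⟨max k l, (h.mono (Z_mono (le_max_left _ _))).mul (h'.mono (Z_mono (le_max_right _ _)))⟩
  one_mem' := ⟨0, In.one _⟩
  inv_mem' := by rintro a ⟨k, h⟩; exact ⟨k, h.inv⟩

lemma two_ne (j : ℤ) : (2 : ℝ) ^ j ≠ 0 := by positivity

lemma N_sc (j : ℤ) {g} (h : g ∈ N) : sc (2 ^ j) g ∈ N := by
  obtain ⟨k, h⟩ := h
  exact ⟨_, h.sc (two_ne j) (Z_sc j k)⟩

noncomputable def nm (g : Y0) : ℝ := sInf {r | ∃ k : ℤ, In (Z k) g ∧ r = 2 ^ k}

lemma nm_bdd (g) : BddBelow {r : ℝ | ∃ k : ℤ, In (Z k) g ∧ r = 2 ^ k} :=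
  ⟨0, by rintro _ ⟨k, -, rfl⟩; positivity⟩
lemma nm_le {g k} (h : In (Z k) g) : nm g ≤ 2 ^ k := csInf_le (nm_bdd g) ⟨k, h, rfl⟩
lemma nm_nonneg (g) : 0 ≤ nm g := Real.sInf_nonneg (by rintro _ ⟨k, -, rfl⟩; positivity)
lemma nm_lt {g} (hg : g ∈ N) {r} (h : nm g < r) : ∃ k, In (Z k) g ∧ (2 : ℝ) ^ k < r := by
  obtain ⟨k, hk⟩ := hg
  obtain ⟨_, ⟨l, hl, rfl⟩, h⟩ := exists_lt_of_csInf_lt
    (s := {r : ℝ | ∃ k : ℤ, In (Z k) g ∧ r = 2 ^ k}) ⟨_, k, hk, rfl⟩ h
  exact ⟨l, hl, h⟩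
lemma nm_one : nm 1 = 0 := by
  refine le_antisymm (le_of_forall_pos_le_add fun ε hε => ?_) (nm_nonneg _)
  obtain ⟨k, hk, -⟩ := exists_mem_Ico_zpow hε (one_lt_two (α := ℝ))
  exact (nm_le (In.one (Z k))).trans (by simpa using hk)
lemma nm_inv (g) : nm g⁻¹ = nm g := by
  unfold nm; congr 1; ext r
  exact ⟨fun ⟨k, h, e⟩ => ⟨k, by simpa using h.inv, e⟩, fun ⟨k, h, e⟩ => ⟨k, h.inv, e⟩⟩
lemma nm_mul {g h} (hg : g ∈ N) (hh : h ∈ N) : nm (g * h) ≤ max (nm g) (nm h) := by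
  by_contra hc
  rw [not_le, max_lt_iff] at hc
  obtain ⟨k, a1, a2⟩ := nm_lt hg hc.1
  obtain ⟨l, b1, b2⟩ := nm_lt hh hc.2
  rcases le_total k l with e | e
  · exact absurd (nm_le ((a1.mono (Z_mono e)).mul b1)) (not_le.2 b2)
  · exact absurd (nm_le (a1.mul (b1.mono (Z_mono e)))) (not_le.2 a2)
lemma nm_sc (j : ℤ) {g} (hg : g ∈ N) : nm (sc (2 ^ j) g) = 2 ^ (-j) * nm g := by
  have h : ∀ (j : ℤ) g, g ∈ N → 2 ^ j * nm (sc (2 ^ j) g) ≤ nm g := by
    intro j g hg
    by_contra hc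
    obtain ⟨k, a1, a2⟩ := nm_lt hg (not_le.1 hc)
    have := mul_le_mul_of_nonneg_left (nm_le (a1.sc (two_ne j) (Z_sc j k)))
      (by positivity : (0 : ℝ) ≤ 2 ^ j)
    rw [← zpow_add₀ (two_ne_zero' ℝ), add_sub_cancel] at this
    linarith
  have h1 := h j g hg
  have h2 := h (-j) _ (N_sc j hg)
  rw [sc_sc, ← zpow_add₀ (two_ne_zero' ℝ), neg_add_cancel, zpow_zero, sc_one] at h2
  refine le_antisymm ?_ h2
  rw [zpow_neg, ← div_eq_inv_mul, le_div_iff₀ (by positivity)]; linarith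

lemma fin_ball (K : ℤ) (C : ℝ) : {g | In (Z K) g ∧ len g ≤ C}.Finite := by
  have hp : (0 : ℝ) < 2 ^ (-K) := by positivity
  let n := ⌈C / 2 ^ (-K)⌉₊
  let T : Set (Σ i, MM i) := (fun p : Bool × ℤ => ⟨p.1, Multiplicative.ofAdd (p.2 • (2 : ℝ) ^ (-K))⟩) ''
    (univ ×ˢ Icc (-n : ℤ) n)
  have hT : T.Finite := ((finite_univ.prod (finite_Icc _ _))).image _
  have : Finite T := hT
  have h1 : ((List.map (Subtype.val : T → _)) '' {l | l.length ≤ n}).Finite :=
    (List.finite_length_le T n).image _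
  refine (h1.image P).subset ?_
  rintro g ⟨hg, hC⟩
  refine ⟨wd g, ?_, P_w g⟩
  have h2 : ∀ x ∈ wd g, x ∈ T ∧ (2 : ℝ) ^ (-K) ≤ |x.2.toAdd| := by
    intro x hx
    obtain ⟨m, hm⟩ := hg x hx
    have a1 : |x.2.toAdd| ≤ C := (List.single_le_sum (map_nonneg _) _
      (List.mem_map_of_mem (f := fun x : Σ i, MM i => |x.2.toAdd|) hx)).trans hC
    have a2 : m ≠ 0 := by
      rintro rfl
      exact (red_w g).1 x hx (by simpa using hm.symm)
    simp only at hm
    rw [← hm, zsmul_eq_mul, abs_mul, abs_of_pos hp] at a1 ⊢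
    constructor
    · refine ⟨(x.1, m), ⟨trivial, ?_⟩, by simp only [hm]; rfl⟩
      have : |(m : ℝ)| ≤ n := ((le_div_iff₀ hp).2 a1).trans (Nat.le_ceil _)
      rw [mem_Icc, ← abs_le]; exact_mod_cast this
    · have : (1 : ℝ) ≤ |(m : ℝ)| := by exact_mod_cast Int.one_le_abs a2
      nlinarith
  have h3 : (wd g).length ≤ n := by
    have := List.card_nsmul_le_sum ((wd g).map fun x => |x.2.toAdd|) ((2 : ℝ) ^ (-K)) (by
      intro y hy
      obtain ⟨x, hx, rfl⟩ := List.mem_map.1 hy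
      exact (h2 x hx).2)
    rw [List.length_map, nsmul_eq_mul] at this
    have : ((wd g).length : ℝ) ≤ n :=
      ((le_div_iff₀ hp).2 (this.trans hC)).trans (Nat.le_ceil _)
    exact_mod_cast this
  generalize wd g = l at h2 h3
  lift l to List T using fun x hx => (h2 x hx).1
  exact ⟨l, by simpa using h3, rfl⟩

end Pool.Agent.H.MP_d5cca6_al
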