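import Pool.Agent.H.MP_d5cca6_al.B

namespace Pool.Agent.H.MP_d5cca6_al

open Monoid Monoid.CoprodI Set

def Yp : Set Y0 := {y | ∃ n ∈ N, ∃ i r, y = n * o i r}

noncomputable def ρ1 (x y : Yp) : ℝ := len (x.1⁻¹ * y.1)

lemma ρ1_tri (x y z : Yp) : ρ1 x z ≤ ρ1 x y + ρ1 y z := by
  have := len_mul (x.1⁻¹ * y.1) (y.1⁻¹ * z.1)
  simpa [mul_assoc, ρ1] using this
lemma ρ1_comm (x y : Yp) : ρ1 x y = ρ1 y x := by rw [ρ1, ← len_inv]; simp [ρ1]

def ln (n : N) (i : Bool) (r : ℝ) : Yp := ⟨n * o i r, n, n.2, i, r, rfl⟩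

lemma ρ1_ln (n i r s) : ρ1 (ln n i r) (ln n i s) = |r - s| := by
  have : (n.1 * o i r)⁻¹ * (n.1 * o i s) = o i (-r + s) := by rw [o_add, o_neg]; group
  rw [ρ1, ln, ln, this, len_o, abs_sub_comm]; congr 1; ring

lemma seg (n i r s) : LP ρ1 (ln n i r) (ln n i s) |s - r| := by
  rcases le_total r s with h | h
  · rw [abs_of_nonneg (by linarith)]
    exact ⟨by linarith, fun u => ln n i (r + u), by simp, by simp, fun u _ v _ => by simp [ρ1_ln]⟩
  · rw [abs_of_nonpos (by linarith)]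
    exact ⟨by linarith, fun u => ln n i (r - u), by simp, by simp, fun u _ v _ => by
      rw [ρ1_ln, abs_sub_comm]; simp⟩

def pN (n : N) : Yp := ln n true 0
lemma ln_zero (n i) : ln n i 0 = pN n := Subtype.ext (by simp [ln, pN, o_zero])
lemma ln_dy (n : N) (i) {k r} (h : r ∈ Z k) :
    ln n i r = pN ⟨n * o i r, N.mul_mem n.2 ⟨k, In.o i h⟩⟩ := Subtype.ext (by simp [ln, pN, o_zero])

lemma chain (k) (l : L) (h : Al (Z k) l) : ∀ n m : N, m.1 = n.1 * P l → LP ρ1 (pN n) (pN m) (F l) := by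
  induction l with
  | nil =>
    intro n m e
    have : m = n := Subtype.ext (by simpa [P_nil] using e)
    subst this
    have := seg m true 0 0
    simpa [F_nil, pN] using this
  | cons x t ih =>
    intro n m e
    have hx := h x (by simp)
    have s1 := seg n x.1 0 x.2.toAdd
    rw [ln_zero, ln_dy n _ hx, sub_zero] at s1
    rw [F_cons]
    exact s1.trans ρ1_tri ρ1_comm (ih (fun y hy => h y (by simp [hy])) _ m (by
      rw [e, P_cons, mul_assoc]; rfl))

lemma len_mid (i j : Bool) (s t : ℝ) (w : L) (hw : ∀ x ∈ w, x.2 ≠ 1)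
    (hc : (i :: (w.map Sigma.fst ++ [j])).IsChain (· ≠ ·)) :
    len (o i s * P w * o j t) = |s| + F w + |t| := by
  have h1 : ∀ t : ℝ, ∃ l : L, (∀ x ∈ l, x.2 ≠ 1) ∧ (i :: l.map Sigma.fst).IsChain (· ≠ ·) ∧
      P l = P w * o j t ∧ F l = F w + |t| := by
    intro t
    by_cases ht : t = 0
    · refine ⟨w, hw, ?_, by simp [ht, o_zero], by simp [ht]⟩
      rw [← List.cons_append] at hc; exact hc.left_of_append
    · refine ⟨w ++ [⟨j, Multiplicative.ofAdd t⟩], fun x hx => ?_, by simpa using hc,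
        by simp [P_app, P_cons, P_nil, o], by simp [F_app, F_cons, F_nil]⟩
      rcases List.mem_append.1 hx with hx | hx
      · exact hw x hx
      · simp at hx; subst hx; simpa using ht
  obtain ⟨l, a1, a2, a3, a4⟩ := h1 t
  rw [mul_assoc, ← a3, add_assoc, ← a4]
  by_cases hs : s = 0
  · simp [hs, o_zero, len_P ⟨a1, a2.tail⟩]
  · have : Red (⟨i, Multiplicative.ofAdd s⟩ :: l) := ⟨fun x hx => by
      rcases List.mem_cons.1 hx with rfl | hx
      exacts [by simpa using hs, a1 x hx], a2⟩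
    have e := len_P this
    rwa [P_cons, F_cons] at e

lemma strip_l (k i) (w : L) (hw : Red w) (h : Al (Z k) w) : ∃ q ∈ Z k, ∃ v : L, Al (Z k) v ∧
    (∀ x ∈ v, x.2 ≠ 1) ∧ (i :: v.map Sigma.fst).IsChain (· ≠ ·) ∧ P w = o i q * P v := by
  cases w with
  | nil => exact ⟨0, zero_mem _, [], h, hw.1, by simp, by simp [o_zero]⟩
  | cons x t =>
    obtain ⟨j, a⟩ := x
    by_cases e : i = j
    · subst e
      exact ⟨a.toAdd, h ⟨i, a⟩ (by simp), t, fun y hy => h y (by simp [hy]), hw.tail.1, hw.2,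
        P_cons _ _⟩
    · exact ⟨0, zero_mem _, _, h, hw.1, List.isChain_cons_cons.2 ⟨e, hw.2⟩, by simp [o_zero]⟩

lemma strip_r (k i j) (v : L) (h : Al (Z k) v) (h1 : ∀ x ∈ v, x.2 ≠ 1)
    (h2 : (i :: v.map Sigma.fst).IsChain (· ≠ ·)) : (i = j ∧ v = []) ∨ ∃ q ∈ Z k, ∃ w : L, Al (Z k) w ∧
    (∀ x ∈ w, x.2 ≠ 1) ∧ (i :: (w.map Sigma.fst ++ [j])).IsChain (· ≠ ·) ∧ P v = P w * o j q := by
  induction v using List.reverseRecOn with
  | nil =>
    by_cases e : i = j
    · exact Or.inl ⟨e, rfl⟩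
    · exact Or.inr ⟨0, zero_mem _, [], h, h1, by simpa using e, by simp [o_zero]⟩
  | append_singleton t x _ =>
    right
    obtain ⟨l, a⟩ := x
    by_cases e : l = j
    · subst e
      exact ⟨a.toAdd, h ⟨l, a⟩ (by simp), t, fun y hy => h y (by simp [hy]),
        fun y hy => h1 y (by simp [hy]), by simpa using h2, by simp [P_app, P_cons, P_nil, o]⟩
    · refine ⟨0, zero_mem _, _, h, h1, ?_, by simp [o_zero]⟩
      simp only [List.map_append, List.map_cons, List.map_nil, List.append_assoc, List.cons_append,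
        List.nil_append] at h2 ⊢
      rw [← List.cons_append] at h2 ⊢
      exact List.isChain_append_cons_cons.2 ⟨h2, e, by simp⟩

lemma geoY (x y : Yp) : LP ρ1 x y (ρ1 x y) := by
  obtain ⟨_, n, hn, i, r, rfl⟩ := x
  obtain ⟨_, n', hn', j, r', rfl⟩ := y
  change LP ρ1 (ln ⟨n, hn⟩ i r) (ln ⟨n', hn'⟩ j r') (ρ1 (ln ⟨n, hn⟩ i r) (ln ⟨n', hn'⟩ j r'))
  obtain ⟨k, hk⟩ := N.mul_mem (N.inv_mem hn) hn'
  obtain ⟨q, hq, v, a1, a2, a3, a4⟩ := strip_l k i _ (red_w _) hk
  rw [P_w] at a4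
  rcases strip_r k i j v a1 a2 a3 with ⟨rfl, rfl⟩ | ⟨q', hq', w, b1, b2, b3, b4⟩
  · have : ln ⟨n', hn'⟩ i r' = ln ⟨n, hn⟩ i (q + r') := Subtype.ext (by
      simp only [ln, o_add, ← mul_assoc]
      rw [P_nil, mul_one] at a4
      rw [← a4]; group)
    rw [this, ρ1_ln, abs_sub_comm]; exact seg _ _ _ _
  · have e : n' = n * o i q * P w * o j q' := by
      rw [mul_assoc, ← b4, mul_assoc, ← a4]; group
    have hm : n' * o j (-q') ∈ N := N.mul_mem hn' ⟨k, In.o j (neg_mem hq')⟩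
    have s1 := seg ⟨n, hn⟩ i r q
    rw [ln_dy _ _ hq] at s1
    have s2 := chain k w b1 ⟨n * o i q, N.mul_mem hn ⟨k, In.o i hq⟩⟩ ⟨_, hm⟩ (by
      simp only [e, o_neg]; group)
    have s3 := seg ⟨n', hn'⟩ j (-q') r'
    rw [ln_dy _ _ (neg_mem hq')] at s3
    convert (s1.trans ρ1_tri ρ1_comm s2).trans ρ1_tri ρ1_comm s3 using 1
    have := len_mid i j (-r + q) (q' + r') w b2 b3
    rw [o_add, o_add, o_neg] at this
    have e2 : (n * o i r)⁻¹ * (n' * o j r') = (o i r)⁻¹ * o i q * P w * (o j q' * o j r') := by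
      rw [e]; group
    simp only [ρ1, ln]
    rw [e2, this, neg_add_eq_sub, sub_neg_eq_add, add_comm q']

noncomputable def φ : Multiplicative ℤ →* MulAut Y0 where
  toFun j := MonoidHom.toMulEquiv (sc (2 ^ j.toAdd)) (sc (2 ^ (-j.toAdd)))
    (MonoidHom.ext fun g => by simp [sc_sc, sc_one, two_ne])
    (MonoidHom.ext fun g => by simp [sc_sc, sc_one, two_ne])
  map_one' := by ext g; simp [sc_one]
  map_mul' a b := by ext g; simp [sc_sc, zpow_add₀]

lemma φ_apply (j g) : φ j g = sc (2 ^ j.toAdd) g := rfl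

abbrev Γ := Y0 ⋊[φ] Multiplicative ℤ

open SemidirectProduct

noncomputable def gens : Set Γ := {inl (o true 1), inl (o false 1), inr (Multiplicative.ofAdd 1)}
noncomputable def GG : Subgroup Γ := Subgroup.closure gens
abbrev G : Type := GG

lemma one_Z : (1 : ℝ) ∈ Z 0 := ⟨1, by simp⟩

lemma left_N (g : G) : g.1.left ∈ N := by
  obtain ⟨g, hg⟩ := g
  induction hg using Subgroup.closure_induction with
  | mem x hx =>
    rcases hx with rfl | rfl | rfl
    exacts [⟨0, In.o _ one_Z⟩, ⟨0, In.o _ one_Z⟩, N.one_mem]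
  | one => exact N.one_mem
  | mul a b _ _ ha hb => exact N.mul_mem ha (N_sc _ hb)
  | inv a _ ha => exact N_sc _ (N.inv_mem ha)

lemma inr_mem (j : ℤ) : (inr (Multiplicative.ofAdd j) : Γ) ∈ GG := by
  have : (inr (Multiplicative.ofAdd 1) : Γ) ∈ GG := Subgroup.subset_closure (by simp [gens])
  have := GG.zpow_mem this j
  rwa [← map_zpow, ← ofAdd_zsmul, smul_eq_mul, mul_one] at this

lemma inl_o (i k) {r} (h : r ∈ Z k) : (inl (o i r) : Γ) ∈ GG := by
  obtain ⟨m, rfl⟩ := h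
  have h1 : (inl (o i 1) : Γ) ∈ GG := Subgroup.subset_closure (by cases i <;> simp [gens])
  have h2 := GG.mul_mem (GG.mul_mem (inr_mem (-k)) h1) (GG.inv_mem (inr_mem (-k)))
  rw [← map_inv, ← inl_aut, φ_apply, sc_o] at h2
  have h3 := GG.zpow_mem h2 m
  simpa [o, ← map_zpow, ← ofAdd_zsmul] using h3

lemma inl_mem {n} (h : n ∈ N) : (inl n : Γ) ∈ GG := by
  obtain ⟨k, h⟩ := h
  rw [← P_w n]
  unfold In at h
  generalize wd n = l at h
  induction l with
  | nil => simp [P_nil]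
  | cons x t ih =>
    rw [P_cons, map_mul]
    exact GG.mul_mem (inl_o x.1 k (h x (by simp))) (ih fun y hy => h y (by simp [hy]))

noncomputable def el (n : N) (j : ℤ) : G :=
  ⟨inl n.1 * inr (Multiplicative.ofAdd j), GG.mul_mem (inl_mem n.2) (inr_mem j)⟩
lemma el_left (n j) : (el n j).1.left = n := by simp [el]
lemma el_right (n j) : (el n j).1.right.toAdd = j := by simp [el]

@[reducible] noncomputable def act (S : Set Y0) (h : ∀ g : G, ∀ y ∈ S, g.1.left * φ g.1.right y ∈ S) :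
    MulAction G S where
  smul g y := ⟨_, h g y y.2⟩
  one_smul y := Subtype.ext (by change (1 : Γ).left * φ (1 : Γ).right y = y; simp)
  mul_smul g h y := Subtype.ext (by
    change (g.1 * h.1).left * φ (g.1 * h.1).right y =
      g.1.left * φ g.1.right (h.1.left * φ h.1.right y)
    simp [mul_assoc])

lemma exp_j (j : ℤ) : Real.exp (j * Real.log 2) = 2 ^ j := by
  rw [← Real.log_zpow, Real.exp_log (by positivity)]

lemma near (s : ℝ) : ∃ j : ℤ, |j * Real.log 2 - s| ≤ 1 := by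
  have h0 : 0 < Real.log 2 := Real.log_pos one_lt_two
  have h1 : Real.log 2 ≤ 1 := by linarith [Real.log_le_sub_one_of_pos (two_pos (α := ℝ))]
  refine ⟨⌊s / Real.log 2⌋, ?_⟩
  have a := (le_div_iff₀ h0).1 (Int.floor_le (s / Real.log 2))
  have b := (div_lt_iff₀ h0).1 (Int.lt_floor_add_one (s / Real.log 2))
  rw [abs_le]; constructor <;> nlinarith

lemma log2 : Real.log 2 ≠ 0 := (Real.log_pos one_lt_two).ne'

noncomputable def c1 : CD G where
  Y := Yp
  act := act Yp (by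
    rintro g _ ⟨n, hn, i, r, rfl⟩
    exact ⟨_, N.mul_mem (left_N g) (N_sc g.1.right.toAdd hn), i, 2 ^ g.1.right.toAdd * r, by
      rw [φ_apply, map_mul, sc_o, mul_assoc]⟩)
  ρ := ρ1
  θ := 1
  lam g := g.1.right.toAdd * Real.log 2
  o := pN 1
  lam_mul g h := by simp; ring
  lam_ne := ⟨el 1 1, by rw [el_right]; exact mul_ne_zero (by norm_num) log2⟩
  ρ_nonneg _ _ := len_nonneg _
  ρ_self x := by simp [ρ1, len_one]
  ρ_comm := ρ1_comm
  ρ_tri := ρ1_tri
  ρ_smul g x y := by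
    change len ((g.1.left * φ g.1.right x.1)⁻¹ * (g.1.left * φ g.1.right y.1)) = _
    rw [exp_j, ρ1, ← len_sc (by positivity), ← φ_apply]; congr 1; simp [mul_assoc]
  kind := Or.inr ⟨rfl, geoY⟩
  cob := by
    rintro ⟨_, n, hn, i, r, rfl⟩ s
    obtain ⟨j, hj⟩ := near s
    obtain ⟨k, hk, -⟩ := exists_mem_Ico_zpow (Real.exp_pos s) (one_lt_two (α := ℝ))
    have hp : (0 : ℝ) < 2 ^ k := by positivity
    have hq : ⌊r / 2 ^ k⌋ * (2 : ℝ) ^ k ∈ Z (-k) := ⟨⌊r / 2 ^ k⌋, by simp⟩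
    refine ⟨el ⟨_, N.mul_mem hn ⟨_, In.o i hq⟩⟩ j, by rwa [el_right], ?_⟩
    have e := ρ1_ln ⟨n, hn⟩ i r (⌊r / 2 ^ k⌋ * (2 : ℝ) ^ k)
    have a := (le_div_iff₀ hp).1 (Int.floor_le (r / 2 ^ k))
    have b := (div_lt_iff₀ hp).1 (Int.lt_floor_add_one (r / 2 ^ k))
    refine le_trans (le_of_eq ?_) (e.trans_le ((abs_le.2 ⟨by linarith, by linarith⟩).trans hk))
    change len (_ * ((el _ j).1.left * φ _ (1 * o true 0))) = _
    simp [el_left, o_zero, ρ1, ln]

noncomputable def c2 : CD G where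
  Y := (N : Set Y0)
  act := act N fun g _ hy => N.mul_mem (left_N g) (N_sc _ hy)
  ρ x y := nm (x.1⁻¹ * y.1)
  θ := 0
  lam g := (-g.1.right.toAdd : ℤ) * Real.log 2
  o := ⟨1, N.one_mem⟩
  lam_mul g h := by simp; ring
  lam_ne := ⟨el 1 1, by rw [el_right]; exact mul_ne_zero (by norm_num) log2⟩
  ρ_nonneg _ _ := nm_nonneg _
  ρ_self x := by simp [nm_one]
  ρ_comm x y := by rw [← nm_inv]; simp
  ρ_tri x y z := by
    have := nm_mul (N.mul_mem (N.inv_mem x.2) y.2) (N.mul_mem (N.inv_mem y.2) z.2)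
    simp only [mul_assoc, mul_inv_cancel_left] at this
    exact this.trans (max_le_add_of_nonneg (nm_nonneg _) (nm_nonneg _))
  ρ_smul g x y := by
    change nm ((g.1.left * φ g.1.right x.1)⁻¹ * (g.1.left * φ g.1.right y.1)) = _
    rw [exp_j, ← nm_sc _ (N.mul_mem (N.inv_mem x.2) y.2), ← φ_apply]; congr 1; simp [mul_assoc]
  kind := Or.inl ⟨rfl, fun x y z => by
    have := nm_mul (N.mul_mem (N.inv_mem x.2) y.2) (N.mul_mem (N.inv_mem y.2) z.2)
    simpa only [mul_assoc, mul_inv_cancel_left] using this⟩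
  cob y s := by
    obtain ⟨j, hj⟩ := near s
    refine ⟨el y (-j), by rwa [el_right, neg_neg], le_trans (le_of_eq ?_) (Real.exp_pos s).le⟩
    change nm (_ * ((el _ _).1.left * φ _ 1)) = _
    simp [el_left, nm_one]

end Pool.Agent.H.MP_d5cca6_al
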